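import Mathlib

/-!
Squares with a bounded number of nonzero base-`p` digits whose roots have arbitrarily many nonzero
base-`p` digits, for every prime `p`.
-/

set_option autoImplicit false

namespace Pool.Agent.Results.MP_dd1d4c_nt.FewDigitSquares

/-- The number of nonzero digits of `m` in base `p`. -/
def nonzeroDigits (p m : ℕ) : ℕ := (Nat.digits p m).countP (fun d => decide (d ≠ 0))

section basics

variable {p : ℕ}

lemma nz_zero : nonzeroDigits p 0 = 0 := by simp [nonzeroDigits]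

lemma nz_add_mul (hp : 1 < p) (a b : ℕ) (ha : a < p) :
    nonzeroDigits p (a + p * b) = (if a = 0 then 0 else 1) + nonzeroDigits p b := by
  by_cases hb : b = 0
  · subst hb
    by_cases ha0 : a = 0
    · subst ha0; simp [nonzeroDigits]
    · simp [nonzeroDigits, Nat.digits_of_lt p a ha0 ha, ha0]
  · unfold nonzeroDigits
    rw [Nat.digits_add p hp a b ha (Or.inr hb)]
    rw [List.countP_cons]
    by_cases ha0 : a = 0
    · simp [ha0]
    · simp [ha0]; ring

lemma nz_mul_base (hp : 1 < p) (b : ℕ) : nonzeroDigits p (p * b) = nonzeroDigits p b := by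
  have := nz_add_mul hp 0 b (by omega)
  simpa using this

lemma nz_of_lt (hp : 1 < p) (a : ℕ) (ha : a < p) (h0 : a ≠ 0) : nonzeroDigits p a = 1 := by
  have := nz_add_mul hp a 0 ha
  simpa [h0, nz_zero] using this

lemma nz_add_pow (hp : 1 < p) (k : ℕ) : ∀ a b : ℕ, a < p ^ k →
    nonzeroDigits p (a + p ^ k * b) = nonzeroDigits p a + nonzeroDigits p b := by
  induction k with
  | zero =>
    intro a b ha
    have : a = 0 := by simpa using ha
    subst this
    simp [nz_zero]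
  | succ k ih =>
    intro a b ha
    have hp0 : 0 < p := by omega
    have h1 : a = a % p + p * (a / p) := (Nat.mod_add_div a p).symm
    have h2 : a % p < p := Nat.mod_lt _ hp0
    have h3 : a / p < p ^ k := by
      rw [Nat.div_lt_iff_lt_mul hp0]
      rwa [pow_succ] at ha
    have h4 : a + p ^ (k + 1) * b = a % p + p * (a / p + p ^ k * b) := by
      conv_lhs => rw [h1]
      ring
    rw [h4, nz_add_mul hp _ _ h2, ih _ _ h3]
    conv_rhs => rw [h1]
    rw [nz_add_mul hp _ _ h2]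
    ring

lemma nz_pow_mul (hp : 1 < p) (k b : ℕ) : nonzeroDigits p (p ^ k * b) = nonzeroDigits p b := by
  have := nz_add_pow hp k 0 b (by positivity)
  simpa [nz_zero] using this

/-- `p ^ k - 1` has `k` nonzero digits. -/
lemma nz_pow_sub_one (hp : 1 < p) (k : ℕ) : ∀ m : ℕ, m + 1 = p ^ k → nonzeroDigits p m = k := by
  induction k with
  | zero =>
    intro m hm
    have : m = 0 := by simpa using hm
    subst this
    exact nz_zero
  | succ k ih =>
    intro m hm
    have hk : 0 < p ^ k := by positivity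
    obtain ⟨q, hq⟩ : ∃ q, p ^ k = q + 1 := ⟨p ^ k - 1, by omega⟩
    have h1 : m = (p - 1) + p * (p ^ k - 1) := by
      have h2 : p * (p ^ k - 1) + p = p ^ (k + 1) := by
        rw [pow_succ, hq, Nat.add_sub_cancel]
        ring
      omega
    rw [h1, nz_add_mul hp _ _ (by omega), ih (p ^ k - 1) (Nat.sub_add_cancel hk)]
    have h3 : p - 1 ≠ 0 := by omega
    simp [h3]
    ring

/-- `p ^ k - c` with `1 ≤ c ≤ p ^ j` has at least `k - j` nonzero digits. -/
lemma nz_pow_sub (hp : 1 < p) (k j c m : ℕ) (hjk : j ≤ k) (hc : 0 < c) (hcj : c ≤ p ^ j)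
    (hm : m + c = p ^ k) : k - j ≤ nonzeroDigits p m := by
  have h1 : p ^ k = p ^ j * p ^ (k - j) := by rw [← pow_add]; congr 1; omega
  have h2 : 0 < p ^ (k - j) := by positivity
  have h3 : m = (p ^ j - c) + p ^ j * (p ^ (k - j) - 1) := by
    obtain ⟨q, hq⟩ : ∃ q, p ^ (k - j) = q + 1 := ⟨p ^ (k - j) - 1, by omega⟩
    have h4 : p ^ j * (p ^ (k - j) - 1) + p ^ j = p ^ k := by
      rw [h1, hq, Nat.add_sub_cancel]
      ring
    omega
  rw [h3, nz_add_pow hp j _ _ (by omega), nz_pow_sub_one hp (k - j) _ (Nat.sub_add_cancel h2)]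
  omega

/-- Reading off digits at the base `x = p ^ k`. -/
lemma nz_add_x (hp : 1 < p) {x k : ℕ} (hx : x = p ^ k) {a : ℕ} (ha : a < x) (b : ℕ) :
    nonzeroDigits p (a + x * b) = nonzeroDigits p a + nonzeroDigits p b := by
  subst hx
  exact nz_add_pow hp k a b ha

lemma nz_x_mul (hp : 1 < p) {x k : ℕ} (hx : x = p ^ k) (b : ℕ) :
    nonzeroDigits p (x * b) = nonzeroDigits p b := by
  subst hx
  exact nz_pow_mul hp k b

/-- The root `1 + a x - d x² + (e + 1) x³ + c x⁴` has at least `k - j` nonzero digits. -/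
lemma root_many (hp : 1 < p) {x k j a d e c y : ℕ} (hx : x = p ^ k) (hjk : j ≤ k) (hd : 0 < d)
    (hdj : d ≤ p ^ j) (hy : y + d = x) (ha : 1 + x * a < x ^ 2) :
    k - j ≤ nonzeroDigits p ((1 + x * a) + x ^ 2 * (y + x * (e + x * c))) := by
  have hx2 : x ^ 2 = p ^ (2 * k) := by rw [hx, ← pow_mul]; congr 1; ring
  have h1 : nonzeroDigits p ((1 + x * a) + x ^ 2 * (y + x * (e + x * c))) =
      nonzeroDigits p (1 + x * a) + nonzeroDigits p (y + x * (e + x * c)) :=
    nz_add_x hp hx2 ha _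
  have h2 : nonzeroDigits p (y + x * (e + x * c)) = nonzeroDigits p y + nonzeroDigits p (e + x * c) :=
    nz_add_x hp hx (by omega) _
  have h3 := nz_pow_sub hp k j d y hjk hd hdj (by rw [hy, hx])
  omega

/-- Digits of `c₀ + c₁ x + c₄ x⁴ + c₇ x⁷ + c₈ x⁸`. -/
lemma square_five (hp : 1 < p) {x k c₀ c₁ c₄ c₇ c₈ : ℕ} (hx : x = p ^ k)
    (h0 : c₀ < x) (h1 : c₁ < x) (h4 : c₄ < x) (h7 : c₇ < x) :
    nonzeroDigits p (c₀ + x * (c₁ + x * (x * (x * (c₄ + x * (x * (x * (c₇ + x * c₈)))))))) =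
      nonzeroDigits p c₀ + nonzeroDigits p c₁ + nonzeroDigits p c₄ + nonzeroDigits p c₇ +
        nonzeroDigits p c₈ := by
  rw [nz_add_x hp hx h0, nz_add_x hp hx h1, nz_x_mul hp hx, nz_x_mul hp hx, nz_add_x hp hx h4,
    nz_x_mul hp hx, nz_x_mul hp hx, nz_add_x hp hx h7]
  ring

/-- Digits of `c₀ + c₁ x + c₂ x² + c₄ x⁴ + c₆ x⁶ + c₇ x⁷ + c₈ x⁸`. -/
lemma square_seven (hp : 1 < p) {x k c₀ c₁ c₂ c₄ c₆ c₇ c₈ : ℕ} (hx : x = p ^ k)
    (h0 : c₀ < x) (h1 : c₁ < x) (h2 : c₂ < x) (h4 : c₄ < x) (h6 : c₆ < x) (h7 : c₇ < x) :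
    nonzeroDigits p (c₀ + x * (c₁ + x * (c₂ + x * (x * (c₄ + x * (x * (c₆ + x * (c₇ + x * c₈)))))))) =
      nonzeroDigits p c₀ + nonzeroDigits p c₁ + nonzeroDigits p c₂ + nonzeroDigits p c₄ +
        nonzeroDigits p c₆ + nonzeroDigits p c₇ + nonzeroDigits p c₈ := by
  rw [nz_add_x hp hx h0, nz_add_x hp hx h1, nz_add_x hp hx h2, nz_x_mul hp hx, nz_add_x hp hx h4,
    nz_x_mul hp hx, nz_add_x hp hx h6, nz_add_x hp hx h7]
  ring

end basics

/-- A large power of `b`. -/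
lemma large_pow (b : ℕ) (hb : 2 ≤ b) (k : ℕ) (hk : 8 ≤ k) : 256 ≤ b ^ k := by
  calc 256 = 2 ^ 8 := by norm_num
    _ ≤ 2 ^ k := Nat.pow_le_pow_right (by norm_num) hk
    _ ≤ b ^ k := Nat.pow_le_pow_left hb k

/-- the polynomial `1 + 2 x - 2 x² + 4 x³ + 4 x⁴` -/
lemma famA (b : ℕ) (hb : 2 ≤ b) (ℓ : ℕ) : ∃ n : ℕ, ℓ < nonzeroDigits b n ∧
    nonzeroDigits b (n ^ 2) = nonzeroDigits b 1 + nonzeroDigits b 4 + nonzeroDigits b 28 +
      nonzeroDigits b 32 + nonzeroDigits b 16 ∧ n ^ 2 % b = 1 % b := by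
  have hL := large_pow b hb (ℓ + 9) (by omega)
  obtain ⟨y, hy⟩ : ∃ y, y + 2 = b ^ (ℓ + 9) := ⟨b ^ (ℓ + 9) - 2, by omega⟩
  set x := b ^ (ℓ + 9) with hx
  refine ⟨(1 + x * 2) + x ^ 2 * (y + x * (3 + x * 4)), ?_, ?_, ?_⟩
  · have h := root_many (p := b) (by omega) (x := x) (k := ℓ + 9) (j := 1) (a := 2) (d := 2)
      (e := 3) (c := 4) (y := y) hx (by omega) (by norm_num) (by simpa using hb) hy (by nlinarith)
    omega
  · have e1 : ((1 + x * 2) + x ^ 2 * (y + x * (3 + x * 4))) ^ 2 =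
        1 + x * (4 + x * (x * (x * (28 + x * (x * (x * (32 + x * 16))))))) := by
      rw [← hy]; ring
    rw [e1]
    exact square_five (by omega) hx (by omega) (by omega) (by omega) (by omega)
  · have e1 : ((1 + x * 2) + x ^ 2 * (y + x * (3 + x * 4))) ^ 2 =
        1 + x * (4 + x * (x * (x * (28 + x * (x * (x * (32 + x * 16))))))) := by
      rw [← hy]; ring
    rw [e1]
    have h2 : b ∣ x := by rw [hx]; exact dvd_pow_self b (by omega)
    obtain ⟨q, hq⟩ := h2
    rw [hq, mul_assoc, Nat.add_mul_mod_self_left]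

/-- the polynomial `1 + 3 x - 3 x² + 9 x³ + 9 x⁴` -/
lemma famB (b : ℕ) (hb : 3 ≤ b) (ℓ : ℕ) : ∃ n : ℕ, ℓ < nonzeroDigits b n ∧
    nonzeroDigits b (n ^ 2) = nonzeroDigits b 1 + nonzeroDigits b 6 + nonzeroDigits b 3 +
      nonzeroDigits b 81 + nonzeroDigits b 27 + nonzeroDigits b 162 + nonzeroDigits b 81 := by
  have hL := large_pow b (by omega) (ℓ + 9) (by omega)
  obtain ⟨y, hy⟩ : ∃ y, y + 3 = b ^ (ℓ + 9) := ⟨b ^ (ℓ + 9) - 3, by omega⟩
  set x := b ^ (ℓ + 9) with hx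
  refine ⟨(1 + x * 3) + x ^ 2 * (y + x * (8 + x * 9)), ?_, ?_⟩
  · have h := root_many (p := b) (by omega) (x := x) (k := ℓ + 9) (j := 1) (a := 3) (d := 3)
      (e := 8) (c := 9) (y := y) hx (by omega) (by norm_num) (by simpa using hb) hy (by nlinarith)
    omega
  · have e1 : ((1 + x * 3) + x ^ 2 * (y + x * (8 + x * 9))) ^ 2 =
        1 + x * (6 + x * (3 + x * (x * (81 + x * (x * (27 + x * (162 + x * 81))))))) := by
      rw [← hy]; ring
    rw [e1]
    exact square_seven (by omega) hx (by omega) (by omega) (by omega) (by omega) (by omega)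
      (by omega)

/-- the polynomial `1 + 2 x - x² + 2 x³ + x⁴` -/
lemma famC (b : ℕ) (hb : 2 ≤ b) (ℓ : ℕ) : ∃ n : ℕ, ℓ < nonzeroDigits b n ∧
    nonzeroDigits b (n ^ 2) = nonzeroDigits b 1 + nonzeroDigits b 4 + nonzeroDigits b 2 +
      nonzeroDigits b 11 + nonzeroDigits b 2 + nonzeroDigits b 4 + nonzeroDigits b 1 := by
  have hL := large_pow b (by omega) (ℓ + 9) (by omega)
  obtain ⟨y, hy⟩ : ∃ y, y + 1 = b ^ (ℓ + 9) := ⟨b ^ (ℓ + 9) - 1, by omega⟩
  set x := b ^ (ℓ + 9) with hx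
  refine ⟨(1 + x * 2) + x ^ 2 * (y + x * (1 + x * 1)), ?_, ?_⟩
  · have h := root_many (p := b) (by omega) (x := x) (k := ℓ + 9) (j := 0) (a := 2) (d := 1)
      (e := 1) (c := 1) (y := y) hx (by omega) (by norm_num) (by simp) hy (by nlinarith)
    omega
  · have e1 : ((1 + x * 2) + x ^ 2 * (y + x * (1 + x * 1))) ^ 2 =
        1 + x * (4 + x * (2 + x * (x * (11 + x * (x * (2 + x * (4 + x * 1))))))) := by
      rw [← hy]; ring
    rw [e1]
    exact square_seven (by omega) hx (by omega) (by omega) (by omega) (by omega) (by omega)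
      (by omega)

/-- For every base `b ≥ 2`, in particular for every prime: there are squares with at most eight
nonzero base-`b` digits whose roots have arbitrarily many nonzero base-`b` digits.  If `b > 32`,
there are such squares with exactly five nonzero digits and last digit `1`. -/
theorem result (b : ℕ) (hb : 2 ≤ b) (ℓ : ℕ) :
    ∃ n : ℕ, ℓ < nonzeroDigits b n ∧ nonzeroDigits b (n ^ 2) ≤ 8 ∧
      (32 < b → nonzeroDigits b (n ^ 2) = 5 ∧ n ^ 2 % b = 1) := by
  by_cases h32 : 32 < b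
  · obtain ⟨n, h1, h2, h3⟩ := famA b hb ℓ
    have hb1 : 1 < b := by omega
    rw [nz_of_lt hb1 1 (by omega) (by norm_num), nz_of_lt hb1 4 (by omega) (by norm_num),
      nz_of_lt hb1 28 (by omega) (by norm_num), nz_of_lt hb1 32 (by omega) (by norm_num),
      nz_of_lt hb1 16 (by omega) (by norm_num)] at h2
    rw [Nat.mod_eq_of_lt hb1] at h3
    exact ⟨n, h1, by omega, fun _ => ⟨by omega, h3⟩⟩
  · rcases (show b = 2 ∨ b = 3 ∨ 4 ≤ b by omega) with h | h | h
    · subst h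
      obtain ⟨n, h1, h2, _⟩ := famA 2 (by norm_num) ℓ
      refine ⟨n, h1, ?_, fun h => absurd h (by norm_num)⟩
      rw [h2]
      simp [nonzeroDigits]
    · subst h
      obtain ⟨n, h1, h2⟩ := famB 3 (by norm_num) ℓ
      refine ⟨n, h1, ?_, fun h => absurd h (by norm_num)⟩
      rw [h2]
      simp [nonzeroDigits]
    · obtain ⟨n, h1, h2⟩ := famC b hb ℓ
      refine ⟨n, h1, ?_, fun h => absurd h h32⟩
      rw [h2]
      interval_cases b <;> simp [nonzeroDigits]

end Pool.Agent.Results.MP_dd1d4c_nt.FewDigitSquares
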